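import Pool.Agent.H125d.FT3

/-! # MP_d4d41d_nt: the coefficients of `(q;q)_∞ / Ψ(-q², q)` are positive from `q^7` on -/

namespace Pool.Agent.Results.MP_d4d41d_nt.AllPositive

open PowerSeries H125d.FT

/-- There is exactly one power series `B` with `B Ψ(-q², q) = (q;q)_∞`, and all its coefficients
of `q^n` with `n ≥ 7` are positive. -/
theorem result : (∃! B : ℤ⟦X⟧, B * falseTheta (-X ^ 2) X = eulerProduct) ∧
    ∀ B : ℤ⟦X⟧, B * falseTheta (-X ^ 2) X = eulerProduct → ∀ n : ℕ, 7 ≤ n → 0 < coeff n B := by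
  refine ⟨?_, fun B hB n hn => positive B hB n hn⟩
  have hu : IsUnit (falseTheta (-X ^ 2) X) := by
    rw [PowerSeries.isUnit_iff_constantCoeff, constantCoeff_falseTheta]
    exact isUnit_one
  obtain ⟨u, hu⟩ := hu
  refine ⟨eulerProduct * (↑u⁻¹ : ℤ⟦X⟧), ?_, ?_⟩
  · dsimp only
    rw [← hu, mul_assoc, Units.inv_mul, mul_one]
  · intro B hB
    rw [← hB, ← hu, mul_assoc, Units.mul_inv, mul_one]

end Pool.Agent.Results.MP_d4d41d_nt.AllPositive
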